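import Pool.Agent.W475.BG.Stm

set_option autoImplicit false

/-!
# Project BG: the local expansion
-/

namespace Pool.Agent.W351.BG

open Complex MeasureTheory Filter Topology
open Pool.Agent.W475.BG

/-- one term: the main part -/
lemma term_eq (D : Dat) (κ t : ℝ) (u : ℂ) (n : ℕ) :
    D.a (n + 1) * ((n : ℂ) + 1) ^ (-(1 / 2) - (I * t + u)) *
      ((Real.exp (-(κ * Real.log ((n : ℝ) + 1) ^ 2)) : ℝ) : ℂ) *
      (HH D (I * t) * cexp (be D t * (u + ((2 * κ * Real.log ((n : ℝ) + 1) : ℝ) : ℂ)) -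
        (κ : ℂ) * be D t ^ 2)) = HH D (I * t) * tm D κ t u (n + 1) := by
  have hx : ((n : ℂ) + 1) ≠ 0 := Nat.cast_add_one_ne_zero n
  have hlog : Complex.log ((n : ℂ) + 1) = ((Real.log ((n : ℝ) + 1) : ℝ) : ℂ) := by
    rw [Complex.ofReal_log (by positivity)]
    push_cast
    rfl
  unfold tm
  have e1 : ((n : ℂ) + 1) ^ (-(1 / 2) - (I * t + u)) =
      ((n : ℂ) + 1) ^ (-(1 / 2) - I * t) * cexp (((Real.log ((n : ℝ) + 1) : ℝ) : ℂ) * (-u)) := by
    rw [show (-(1 / 2) - (I * t + u) : ℂ) = (-(1 / 2) - I * t) + (-u) by ring,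
      Complex.cpow_add _ _ hx, Complex.cpow_def_of_ne_zero hx (-u), hlog]
  rw [e1]
  push_cast
  set L : ℂ := ((Real.log ((n : ℝ) + 1) : ℝ) : ℂ) with hL
  have e2 : cexp ((be D t - L) * u - (κ : ℂ) * (be D t - L) ^ 2) =
      cexp (L * (-u)) * cexp (-((κ : ℂ) * L ^ 2)) * cexp (be D t * (u + 2 * κ * L) -
        (κ : ℂ) * be D t ^ 2) := by
    rw [← Complex.exp_add, ← Complex.exp_add]
    congr 1
    ring
  rw [e2]
  ring

theorem loc (D : Dat) (_hD : Ok D) (h0 : S_EXP D) (_h1 : S_STIR D) (h2 : S_GGA D)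
    (h3 : S_TAIL D) : S_LOC D := by
  intro κ hκ K hK
  obtain ⟨M, T1, hM, hT1, hT⟩ := h3 κ hκ K hK
  obtain ⟨T2, hT2, hG⟩ := h2 κ hκ (K + 2 * κ * M) (by nlinarith [mul_pos hκ (by linarith : 0 < M)])
  refine ⟨M, max T1 T2, hM, le_max_of_le_left hT1, fun t ht u hu hre => ?_⟩
  have ht1 : T1 ≤ t := (le_max_left _ _).trans ht
  have ht2 : T2 ≤ t := (le_max_right _ _).trans ht
  have ht0 : 0 < t := by linarith
  have htl : 0 ≤ Real.log t := Real.log_nonneg (by linarith)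
  have hre0 : 0 ≤ (I * (t : ℂ) + u).re := by
    simp only [Complex.add_re, Complex.mul_re, Complex.I_re, Complex.ofReal_re, Complex.I_im,
      Complex.ofReal_im, zero_mul, mul_zero, sub_zero, zero_add]
    exact hre
  have hsum := (h0 κ hκ (I * t + u) hre0).1
  have key : ∀ n : ℕ, (n : ℝ) + 1 ≤ t ^ M → ‖XT D κ (I * t + u) n - HH D (I * t) * tm D κ t u (n + 1)‖ ≤
      t ^ (-(9 / 10) : ℝ) * (‖HH D (I * t)‖ * ‖tm D κ t u (n + 1)‖) := by
    intro n hn
    have hn1 : (1 : ℝ) ≤ (n : ℝ) + 1 := by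
      have : (0 : ℝ) ≤ n := Nat.cast_nonneg n
      linarith
    have hL0 : 0 ≤ Real.log ((n : ℝ) + 1) := Real.log_nonneg hn1
    have hL1 : Real.log ((n : ℝ) + 1) ≤ M * Real.log t := by
      rw [← Real.log_rpow ht0]
      exact Real.log_le_log (by linarith) hn
    have hpos : 0 ≤ 2 * κ * Real.log ((n : ℝ) + 1) := by positivity
    have hu' : ‖u + ((2 * κ * Real.log ((n : ℝ) + 1) : ℝ) : ℂ)‖ ≤ (K + 2 * κ * M) * Real.log t := by
      refine (norm_add_le _ _).trans ?_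
      rw [Complex.norm_real, Real.norm_eq_abs, abs_of_nonneg hpos]
      have : 2 * κ * Real.log ((n : ℝ) + 1) ≤ 2 * κ * (M * Real.log t) :=
        mul_le_mul_of_nonneg_left hL1 (by positivity)
      nlinarith
    have hre' : 0 ≤ (u + ((2 * κ * Real.log ((n : ℝ) + 1) : ℝ) : ℂ)).re := by
      rw [Complex.add_re, Complex.ofReal_re]
      linarith
    have hg := hG t ht2 _ hu' hre'
    rw [← add_assoc] at hg
    set c : ℂ := D.a (n + 1) * ((n : ℂ) + 1) ^ (-(1 / 2) - (I * t + u)) *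
      ((Real.exp (-(κ * Real.log ((n : ℝ) + 1) ^ 2)) : ℝ) : ℂ) with hc
    have e1 : XT D κ (I * t + u) n =
        c * GG D κ (I * t + u + ((2 * κ * Real.log ((n : ℝ) + 1) : ℝ) : ℂ)) := rfl
    have e2 := term_eq D κ t u n
    rw [← hc] at e2
    rw [← norm_mul, ← e2, e1, ← mul_sub, norm_mul, norm_mul c]
    calc ‖c‖ * _ ≤ ‖c‖ * _ := mul_le_mul_of_nonneg_left hg (norm_nonneg c)
      _ = _ := by ring
  set N : ℕ := ⌊t ^ M⌋₊ with hN
  have htM : 0 ≤ t ^ M := Real.rpow_nonneg ht0.le _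
  have shift : ∀ {A : Type} [AddCommMonoid A] (f : ℕ → A),
      ∑ n ∈ Finset.Icc 1 N, f n = ∑ n ∈ Finset.range N, f (n + 1) := by
    intro A _ f
    rw [Finset.range_eq_Ico, Finset.sum_Ico_add' f 0 N 1]
    refine Finset.sum_congr ?_ fun _ _ => rfl
    ext x
    simp only [Finset.mem_Icc, Finset.mem_Ico]
    omega
  have tail : ‖∑' n : ℕ, XT D κ (I * t + u) (n + N)‖ ≤ t ^ (-10 : ℝ) * ‖HH D (I * t)‖ := by
    have hs' : Summable fun n : ℕ => ‖XT D κ (I * t + u) (n + N)‖ :=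
      (summable_nat_add_iff (f := fun n => ‖XT D κ (I * t + u) n‖) N).2 hsum
    refine (norm_tsum_le_tsum_norm hs').trans ?_
    refine Real.tsum_le_of_sum_range_le (fun _ => norm_nonneg _) fun m => ?_
    have h4 := hT t ht1 u hu hre ((Finset.range m).map (addRightEmbedding N)) (by
      intro n hn
      rw [Finset.mem_map] at hn
      obtain ⟨k, _, rfl⟩ := hn
      have h5 := Nat.lt_floor_add_one (t ^ M)
      rw [← hN] at h5
      simp only [addRightEmbedding_apply]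
      push_cast
      have : (0 : ℝ) ≤ k := Nat.cast_nonneg k
      linarith)
    rw [Finset.sum_map] at h4
    simpa using h4
  have split : XK D κ (I * t + u) = ∑ n ∈ Finset.range N, XT D κ (I * t + u) n +
      ∑' n : ℕ, XT D κ (I * t + u) (n + N) := by
    rw [(h0 κ hκ (I * t + u) hre0).2]
    exact (hsum.of_norm.sum_add_tsum_nat_add N).symm
  rw [split, shift, shift, Finset.mul_sum]
  have e3 : (∑ n ∈ Finset.range N, XT D κ (I * t + u) n +
      ∑' n : ℕ, XT D κ (I * t + u) (n + N)) - ∑ n ∈ Finset.range N, HH D (I * t) * tm D κ t u (n + 1) =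
      ∑ n ∈ Finset.range N, (XT D κ (I * t + u) n - HH D (I * t) * tm D κ t u (n + 1)) +
      ∑' n : ℕ, XT D κ (I * t + u) (n + N) := by
    rw [Finset.sum_sub_distrib]
    ring
  rw [e3]
  refine (norm_add_le _ _).trans ?_
  have e4 : ‖∑ n ∈ Finset.range N, (XT D κ (I * t + u) n - HH D (I * t) * tm D κ t u (n + 1))‖ ≤
      ∑ n ∈ Finset.range N, t ^ (-(9 / 10) : ℝ) * (‖HH D (I * t)‖ * ‖tm D κ t u (n + 1)‖) := by
    refine (norm_sum_le _ _).trans (Finset.sum_le_sum fun n hn => key n ?_)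
    rw [Finset.mem_range] at hn
    have h6 : ((n + 1 : ℕ) : ℝ) ≤ N := by exact_mod_cast hn
    push_cast at h6
    exact h6.trans (Nat.floor_le htM)
  refine (add_le_add e4 tail).trans (le_of_eq ?_)
  rw [← Finset.mul_sum, ← Finset.mul_sum]
  ring

end Pool.Agent.W351.BG
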